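import Pool.Agent.Run7.h714.AX.OC4

/-!
# Piece GQ1 of project AX (helper148, MP_09540e_an)
-/

set_option autoImplicit false

open MeasureTheory Set Filter Topology
open scoped ENNReal ContDiff FourierTransform RealInnerProductSpace

namespace Pool.Agent.Run7.h714.AX

open Pool.Agent.Run7.h148.AX

/-! ### compactly supported smooth functions -/

theorem cc_int {ρ : E3 → ℝ} (hρ : Cc ρ) : Integrable (fun x => ((ρ x : ℝ) : ℂ)) :=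
  int_ofReal hρ.1.continuous hρ.2

theorem cc_pd {ρ : E3 → ℝ} (hρ : Cc ρ) (j : Fin 3) : Cc (pd j ρ) := by
  refine ⟨?_, ?_⟩
  · exact (hρ.1.fderiv_right (m := ∞) (by exact le_rfl)).clm_apply contDiff_const
  · exact hρ.2.fderiv_apply (𝕜 := ℝ) (EuclideanSpace.single j 1)

theorem cc_mul_left {f g : E3 → ℝ} (hf : ContDiff ℝ ∞ f) (hg : Cc g) : Cc (fun x => f x * g x) :=
  ⟨hf.mul hg.1, hg.2.mul_left⟩

theorem cc_mul_right {f g : E3 → ℝ} (hf : Cc f) (hg : ContDiff ℝ ∞ g) : Cc (fun x => f x * g x) :=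
  ⟨hf.1.mul hg, hf.2.mul_right⟩

theorem cc_add {f g : E3 → ℝ} (hf : Cc f) (hg : Cc g) : Cc (fun x => f x + g x) :=
  ⟨hf.1.add hg.1, hf.2.add hg.2⟩

theorem cc_const {f : E3 → ℝ} (c : ℝ) (hf : Cc f) : Cc (fun x => c * f x) :=
  ⟨contDiff_const.mul hf.1, hf.2.mul_left⟩

theorem cc_sum {f : Fin 3 → E3 → ℝ} (hf : ∀ j, Cc (f j)) : Cc (fun x => ∑ j, f j x) := by
  have h : (fun x => ∑ j, f j x) = fun x => f 0 x + f 1 x + f 2 x := by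
    funext x
    rw [Fin.sum_univ_three]
  rw [h]
  exact cc_add (cc_add (hf 0) (hf 1)) (hf 2)

theorem ft_sum {f : Fin 3 → E3 → ℝ} (hf : ∀ j, Cc (f j)) (ξ : E3) :
    𝓕 (fun x => ((∑ j, f j x : ℝ) : ℂ)) ξ = ∑ j, 𝓕 (fun x => ((f j x : ℝ) : ℂ)) ξ := by
  have h : (fun x => ((∑ j, f j x : ℝ) : ℂ)) = fun x => (((f 0 x + f 1 x) + f 2 x : ℝ) : ℂ) := by
    funext x
    rw [Fin.sum_univ_three]
  rw [h, ft_add (cc_int (cc_add (hf 0) (hf 1))) (cc_int (hf 2)), ft_add (cc_int (hf 0)) (cc_int (hf 1)),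
    Fin.sum_univ_three]

theorem pd_mul {f g : E3 → ℝ} (hf : ContDiff ℝ ∞ f) (hg : ContDiff ℝ ∞ g) (j : Fin 3) (x : E3) :
    pd j (fun y => f y * g y) x = f x * pd j g x + g x * pd j f x := by
  have hf1 : DifferentiableAt ℝ f x := (hf.differentiable (by simp)) x
  have hg1 : DifferentiableAt ℝ g x := (hg.differentiable (by simp)) x
  unfold pd
  rw [fderiv_fun_mul hf1 hg1]
  rfl

/-- `∑ ∂_j (U_j f) = ∑ U_j ∂_j f` for divergence free `U` -/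
theorem div_mul {U : Fin 3 → E3 → ℝ} {f : E3 → ℝ} (hU : ∀ j, ContDiff ℝ ∞ (U j)) (hf : ContDiff ℝ ∞ f)
    (hd : ∀ x, ∑ j, pd j (U j) x = 0) (x : E3) :
    ∑ j, pd j (fun y => U j y * f y) x = ∑ j, U j x * pd j f x := by
  have h1 : ∀ j, pd j (fun y => U j y * f y) x = U j x * pd j f x + f x * pd j (U j) x :=
    fun j => pd_mul (hU j) hf j x
  rw [Finset.sum_congr rfl fun j _ => h1 j, Finset.sum_add_distrib, ← Finset.mul_sum, hd, mul_zero, add_zero]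

/-! ### the projection -/

theorem dt_add (ξ : E3) (v w : C3) : dt ξ (v + w) = dt ξ v + dt ξ w := by
  unfold dt
  rw [← Finset.sum_add_distrib]
  refine Finset.sum_congr rfl fun j _ => ?_
  rw [Pi.add_apply, mul_add]

theorem dt_smul (ξ : E3) (c : ℂ) (v : C3) : dt ξ (c • v) = c * dt ξ v := by
  unfold dt
  rw [Finset.mul_sum]
  refine Finset.sum_congr rfl fun j _ => ?_
  rw [Pi.smul_apply, smul_eq_mul]
  ring

theorem lp_add (ξ : E3) (v w : C3) : lp ξ (v + w) = lp ξ v + lp ξ w := by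
  funext k
  show v k + w k - (ξ k : ℂ) * dt ξ (v + w) / ((‖ξ‖ ^ 2 : ℝ) : ℂ) =
    (v k - (ξ k : ℂ) * dt ξ v / ((‖ξ‖ ^ 2 : ℝ) : ℂ)) + (w k - (ξ k : ℂ) * dt ξ w / ((‖ξ‖ ^ 2 : ℝ) : ℂ))
  rw [dt_add]
  ring

theorem lp_smul (ξ : E3) (c : ℂ) (v : C3) : lp ξ (c • v) = c • lp ξ v := by
  funext k
  show c * v k - (ξ k : ℂ) * dt ξ (c • v) / ((‖ξ‖ ^ 2 : ℝ) : ℂ) =
    c * (v k - (ξ k : ℂ) * dt ξ v / ((‖ξ‖ ^ 2 : ℝ) : ℂ))
  rw [dt_smul]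
  ring

theorem lp_of_dt {ξ : E3} {v : C3} (h : dt ξ v = 0) : lp ξ v = v := by
  funext k
  show v k - (ξ k : ℂ) * dt ξ v / ((‖ξ‖ ^ 2 : ℝ) : ℂ) = v k
  rw [h, mul_zero, zero_div, sub_zero]

/-! ### bounded integrable functions -/

/-- measurable, bounded, integrable -/
def BI (a : E3 → C3) : Prop :=
  Measurable a ∧ (∃ M : ℝ≥0∞, M ≠ ⊤ ∧ ∀ ξ, ‖a ξ‖ₑ ≤ M) ∧ (∫⁻ ξ, ‖a ξ‖ₑ) < ⊤

theorem BI.add {a b : E3 → C3} (ha : BI a) (hb : BI b) : BI (fun η => a η + b η) := by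
  obtain ⟨a1, ⟨M, a2, a3⟩, a4⟩ := ha
  obtain ⟨b1, ⟨M', b2, b3⟩, b4⟩ := hb
  refine ⟨a1.add b1, ⟨M + M', ENNReal.add_ne_top.2 ⟨a2, b2⟩, fun ξ =>
    (enorm_add_le _ _).trans (add_le_add (a3 ξ) (b3 ξ))⟩, ?_⟩
  refine lt_of_le_of_lt (lintegral_mono fun ξ => enorm_add_le _ _) ?_
  rw [lintegral_add_left a1.enorm]
  exact ENNReal.add_lt_top.2 ⟨a4, b4⟩

theorem BI.smul {a : E3 → C3} (c : ℝ) (ha : BI a) : BI (fun η => c • a η) := by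
  obtain ⟨a1, ⟨M, a2, a3⟩, a4⟩ := ha
  refine ⟨a1.const_smul c, ⟨‖c‖ₑ * M, ENNReal.mul_ne_top enorm_ne_top a2, fun ξ => ?_⟩, ?_⟩
  · rw [enorm_smul]
    exact mul_le_mul' le_rfl (a3 ξ)
  · have h1 : (∫⁻ ξ, ‖c • a ξ‖ₑ) = ‖c‖ₑ * ∫⁻ ξ, ‖a ξ‖ₑ := by
      rw [← lintegral_const_mul' _ _ enorm_ne_top]
      refine lintegral_congr fun ξ => ?_
      rw [enorm_smul]
    rw [h1]
    exact ENNReal.mul_lt_top enorm_lt_top a4

theorem BI.cv {a b : E3 → C3} (ha : BI a) (hb : BI b) (ξ : E3) :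
    cv (fun η => ‖a η‖ₑ) (fun η => ‖b η‖ₑ) ξ < ⊤ := by
  obtain ⟨a1, ⟨M, a2, a3⟩, a4⟩ := ha
  obtain ⟨b1, -, b4⟩ := hb
  unfold Pool.Agent.Run7.h148.AX.cv
  refine lt_of_le_of_lt (lintegral_mono fun η => mul_le_mul' (a3 (ξ - η)) le_rfl) ?_
  rw [lintegral_const_mul' _ _ a2]
  exact ENNReal.mul_lt_top a2.lt_top b4

theorem BI.of_wk {a : E3 → C3} (h1 : Measurable a)
    (h2 : ∀ k : ℕ, ∃ M : NNReal, (∫⁻ ξ, wk k ξ * ‖a ξ‖ₑ) ≤ M ∧ ∀ ξ, wk k ξ * ‖a ξ‖ₑ ≤ M) : BI a := by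
  obtain ⟨M, h3, h4⟩ := h2 0
  have hw : ∀ ξ : E3, wk 0 ξ = 1 := by
    intro ξ
    unfold wk
    rw [pow_zero, ENNReal.ofReal_one]
  simp only [hw, one_mul] at h3 h4
  exact ⟨h1, ⟨M, ENNReal.coe_ne_top, h4⟩, h3.trans_lt ENNReal.coe_lt_top⟩

theorem nl_exp (hNLS : S_NLS) (hNLL : S_NLL) (e : ℝ) {v w : E3 → C3} (hv : BI v) (hw : BI w) (ξ : E3) :
    nl (fun η => e • v η + w η) (fun η => e • v η + w η) ξ =
      (e ^ 2) • nl v v ξ + e • nl v w ξ + e • nl w v ξ + nl w w ξ := by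
  have ha := hv.smul e
  have hg := ha.add hw
  have h1 := (hNLL (fun η => e • v η) w (fun η => e • v η + w η) (fun η => e • v η + w η)
    ha.1 hw.1 hg.1 hg.1 ξ (ha.cv hg ξ) (hw.cv hg ξ) (ha.cv hg ξ)).1
  have h2 := (hNLL (fun η => e • v η) (fun η => e • v η) (fun η => e • v η) w
    ha.1 ha.1 ha.1 hw.1 ξ (ha.cv ha ξ) (ha.cv ha ξ) (ha.cv hw ξ)).2.2.1
  have h3 := (hNLL w w (fun η => e • v η) w
    hw.1 hw.1 ha.1 hw.1 ξ (hw.cv ha ξ) (hw.cv ha ξ) (hw.cv hw ξ)).2.2.1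
  rw [h1, h2, h3, (hNLS e v (fun η => e • v η) ξ).1, (hNLS e v v ξ).2, (hNLS e v w ξ).1, (hNLS e w v ξ).2,
    smul_smul, ← sq]
  abel

/-! ### the equation -/

/-- transforms of second derivatives -/
theorem ft_pd2 (hFTF : S_FTF) {f : E3 → ℝ} (hf : Cc f) (ξ : E3) :
    𝓕 (fun x => ((∑ j, pd j (pd j f) x : ℝ) : ℂ)) ξ =
      ((-(4 * Real.pi ^ 2 * ‖ξ‖ ^ 2) : ℝ) : ℂ) * 𝓕 (fun x => ((f x : ℝ) : ℂ)) ξ := by
  rw [ft_sum fun j => cc_pd (cc_pd hf j) j]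
  have h1 : ∀ j, 𝓕 (fun x => ((pd j (pd j f) x : ℝ) : ℂ)) ξ =
      -(4 * (Real.pi : ℂ) ^ 2 * (ξ j : ℂ) ^ 2) * 𝓕 (fun x => ((f x : ℝ) : ℂ)) ξ := by
    intro j
    rw [hFTF.2 (pd j f) (cc_pd hf j) j ξ, hFTF.2 f hf j ξ]
    have h2 := Complex.I_sq
    linear_combination (4 * (Real.pi : ℂ) ^ 2 * (ξ j : ℂ) ^ 2 * 𝓕 (fun x => ((f x : ℝ) : ℂ)) ξ) * h2
  rw [Finset.sum_congr rfl fun j _ => h1 j, ← Finset.sum_mul, Finset.sum_neg_distrib, ← Finset.mul_sum]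
  congr 1
  have h3 : ‖ξ‖ ^ 2 = ∑ j, ξ j ^ 2 := by
    rw [EuclideanSpace.norm_sq_eq]
    refine Finset.sum_congr rfl fun j _ => ?_
    rw [Real.norm_eq_abs, sq_abs]
  rw [h3]
  push_cast
  ring

theorem t_GQ1 (hFTF : S_FTF) (hBIL : S_BIL) (hNLS : S_NLS) (hNLL : S_NLL) (hVVP : S_VVP) (hWDV : S_WDV)
    (hRES : S_RES) (hOC2 : S_OC2) (hOC6 : S_OC6) : S_GQ1 := by
  intro ν A hν hA n t ξ
  obtain ⟨hV1, hV2, hV3, hV4, -, hV6, -⟩ := hVVP ν A hν hA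
  set V : E3 → E3 := VV ν A with hVdef
  have hVc : ∀ k, ContDiff ℝ ∞ (fun x => V x k) := fun k => by
    have := hV4
    rw [contDiff_euclidean] at this
    exact this k
  have hAc : ∀ k, Cc (fun x => A x k) := by
    intro k
    refine ⟨?_, ?_⟩
    · have := hA.1
      rw [contDiff_euclidean] at this
      exact this k
    · exact hA.2.1.comp_left (g := fun v : E3 => v k) rfl
  -- the families
  have hR : ∀ k, Rw ν A V k ∈ OO ν 1 := fun k => (hRES ν A V hν hA hV4 k).1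
  have hw : ∀ k, ww ν A V k ∈ OO ν 1 := fun k => (hRES ν A V hν hA hV4 k).2
  have hRc : ∀ k, Cc (Rw ν A V k n t) := fun k => (hOC2 ν 1 _ (hR k)).2.1 n t
  have hwc : ∀ k, Cc (ww ν A V k n t) := fun k => (hOC2 ν 1 _ (hw k)).2.1 n t
  obtain ⟨-, hwf1, hwf2⟩ := hWDV ν A V hν hA hV4 n t
  have hwdiv : ∀ s x, ∑ k, pd k (ww ν A V k n s) x = 0 := fun s => (hWDV ν A V hν hA hV4 n s).1
  set w : E3 → E3 := wf ν A V n t with hwdef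
  have hfw := hFTF.1 w hwf1 hwf2
  have hfA := hFTF.1 A hA.1 hA.2.1
  have bV : BI (Vh ν A) := BI.of_wk hV1 hV2
  have bw : BI (fth w) := BI.of_wk hfw.1 hfw.2.1
  have fin : ∀ (a : E3 → C3), (∀ k : ℕ, ∃ M : NNReal, (∫⁻ ξ, wk k ξ * ‖a ξ‖ₑ) ≤ M ∧ ∀ ξ, wk k ξ * ‖a ξ‖ₑ ≤ M) →
      ∀ k : ℕ, (∫⁻ ξ, wk k ξ * ‖a ξ‖ₑ) < ⊤ := fun a h k => by
    obtain ⟨M, hM, -⟩ := h k
    exact hM.trans_lt ENNReal.coe_lt_top
  set e : ℝ := Real.exp (-(2 * ta ν n t)) with he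
  set N : ℝ := NN n with hN
  -- the space terms
  set T1 : Fin 3 → E3 → ℝ := fun k x => ∑ j, pd j (fun y => V y j * w y k) x with hT1
  set T2 : Fin 3 → E3 → ℝ := fun k x => ∑ j, pd j (fun y => w y j * V y k) x with hT2
  set T3 : Fin 3 → E3 → ℝ := fun k x => ∑ j, pd j (fun y => w y j * w y k) x with hT3
  set T4 : Fin 3 → E3 → ℝ := fun k x => ∑ j, pd j (fun y => A y j * A y k) x with hT4
  set L : Fin 3 → E3 → ℝ := fun k x => ∑ j, pd j (pd j (ww ν A V k n t)) x with hL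
  have c1 : ∀ k, Cc (T1 k) := fun k => cc_sum fun j => cc_pd (cc_mul_left (hVc j) (hwc k)) j
  have c2 : ∀ k, Cc (T2 k) := fun k => cc_sum fun j => cc_pd (cc_mul_right (hwc j) (hVc k)) j
  have c3 : ∀ k, Cc (T3 k) := fun k => cc_sum fun j => cc_pd (cc_mul_right (hwc j) (hwc k).1) j
  have c4 : ∀ k, Cc (T4 k) := fun k => cc_sum fun j => cc_pd (cc_mul_right (hAc j) (hAc k).1) j
  have cL : ∀ k, Cc (L k) := fun k => cc_sum fun j => cc_pd (cc_pd (hwc k) j) j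
  -- the pointwise equation
  have e1 : ∀ k x, T1 k x = ∑ j, V x j * pd j (ww ν A V k n t) x := fun k x =>
    div_mul (U := fun j y => V y j) hVc (hwc k).1 hV6 x
  have e2 : ∀ k x, T2 k x = ∑ j, ww ν A V j n t x * pd j (fun y => V y k) x := fun k x =>
    div_mul (U := fun j y => ww ν A V j n t y) (fun j => (hwc j).1) (hVc k) (hwdiv t) x
  have e3 : ∀ k x, T3 k x = ∑ j, ww ν A V j n t x * pd j (ww ν A V k n t) x := fun k x =>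
    div_mul (U := fun j y => ww ν A V j n t y) (fun j => (hwc j).1) (hwc k).1 (hwdiv t) x
  have hpt : ∀ k x, dtm (ww ν A V k) n t x = Rw ν A V k n t x + (ν * L k x + ((-e) * T1 k x + ((-e) * T2 k x +
      ((-1) * T3 k x + (N ^ 2 / 2 * e) * T4 k x)))) := by
    intro k x
    have h1 : Rw ν A V k n t x = dtm (ww ν A V k) n t x - ν * L k x
        + e * (∑ j, (V x j * pd j (ww ν A V k n t) x + ww ν A V j n t x * pd j (fun y => V y k) x))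
        + (∑ j, ww ν A V j n t x * pd j (ww ν A V k n t) x) - N ^ 2 / 2 * e * T4 k x := rfl
    rw [Finset.sum_add_distrib, ← e1, ← e2, ← e3] at h1
    rw [h1]
    ring
  -- the transformed equation
  have hft : ∀ k, 𝓕 (fun x => ((dtm (ww ν A V k) n t x : ℝ) : ℂ)) ξ =
      𝓕 (fun x => ((Rw ν A V k n t x : ℝ) : ℂ)) ξ + ((ν : ℂ) * 𝓕 (fun x => ((L k x : ℝ) : ℂ)) ξ
        + (((-e : ℝ) : ℂ) * 𝓕 (fun x => ((T1 k x : ℝ) : ℂ)) ξ + (((-e : ℝ) : ℂ) * 𝓕 (fun x => ((T2 k x : ℝ) : ℂ)) ξ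
        + (((-1 : ℝ) : ℂ) * 𝓕 (fun x => ((T3 k x : ℝ) : ℂ)) ξ
        + ((N ^ 2 / 2 * e : ℝ) : ℂ) * 𝓕 (fun x => ((T4 k x : ℝ) : ℂ)) ξ)))) := by
    intro k
    have h1 : (fun x => ((dtm (ww ν A V k) n t x : ℝ) : ℂ)) = fun x => ((Rw ν A V k n t x + (ν * L k x +
        ((-e) * T1 k x + ((-e) * T2 k x + ((-1) * T3 k x + (N ^ 2 / 2 * e) * T4 k x)))) : ℝ) : ℂ) := by
      funext x
      rw [hpt k x]
    have d4 := cc_const (N ^ 2 / 2 * e) (c4 k)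
    have d3 := cc_const (-1) (c3 k)
    have d2 := cc_const (-e) (c2 k)
    have d1 := cc_const (-e) (c1 k)
    have dL := cc_const ν (cL k)
    have s3 := cc_add d3 d4
    have s2 := cc_add d2 s3
    have s1 := cc_add d1 s2
    have sL := cc_add dL s1
    rw [h1, ft_add (cc_int (hRc k)) (cc_int sL), ft_add (cc_int dL) (cc_int s1), ft_add (cc_int d1) (cc_int s2),
      ft_add (cc_int d2) (cc_int s3), ft_add (cc_int d3) (cc_int d4), ft_const, ft_const, ft_const, ft_const, ft_const]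
  -- vectors
  set D : C3 := fun k => 𝓕 (fun x => ((dtm (ww ν A V k) n t x : ℝ) : ℂ)) ξ with hD
  set F1 : C3 := fun k => 𝓕 (fun x => ((T1 k x : ℝ) : ℂ)) ξ with hF1
  set F2 : C3 := fun k => 𝓕 (fun x => ((T2 k x : ℝ) : ℂ)) ξ with hF2
  set F3 : C3 := fun k => 𝓕 (fun x => ((T3 k x : ℝ) : ℂ)) ξ with hF3
  set F4 : C3 := fun k => 𝓕 (fun x => ((T4 k x : ℝ) : ℂ)) ξ with hF4
  set Rv : C3 := fth (Rwf ν A V n t) ξ with hRv
  have hFL : ∀ k, 𝓕 (fun x => ((L k x : ℝ) : ℂ)) ξ = ((-(4 * Real.pi ^ 2 * ‖ξ‖ ^ 2) : ℝ) : ℂ) * fth w ξ k :=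
    fun k => ft_pd2 hFTF (hwc k) ξ
  have hDeq : D = Rv + (((-(4 * Real.pi ^ 2 * ν * ‖ξ‖ ^ 2) : ℝ) : ℂ) • fth w ξ + (((-e : ℝ) : ℂ) • F1 +
      (((-e : ℝ) : ℂ) • F2 + (((-1 : ℝ) : ℂ) • F3 + ((N ^ 2 / 2 * e : ℝ) : ℂ) • F4)))) := by
    funext k
    have h1 := hft k
    rw [hFL k] at h1
    show 𝓕 (fun x => ((dtm (ww ν A V k) n t x : ℝ) : ℂ)) ξ = 𝓕 (fun x => ((Rw ν A V k n t x : ℝ) : ℂ)) ξ +
      (((-(4 * Real.pi ^ 2 * ν * ‖ξ‖ ^ 2) : ℝ) : ℂ) * fth w ξ k + (((-e : ℝ) : ℂ) * F1 k +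
      (((-e : ℝ) : ℂ) * F2 k + (((-1 : ℝ) : ℂ) * F3 k + ((N ^ 2 / 2 * e : ℝ) : ℂ) * F4 k))))
    rw [h1]
    push_cast
    ring
  -- divergence
  have hdw : ∀ s, dt ξ (fth (wf ν A V n s) ξ) = 0 := by
    intro s
    obtain ⟨h1, h2, h3⟩ := hWDV ν A V hν hA hV4 n s
    exact (hFTF.1 _ h2 h3).2.2.2.2.1 h1 ξ
  have hderiv : ∀ k, HasDerivAt (fun s => fth (wf ν A V n s) ξ k) (D k) t := fun k => hOC6 ν 1 _ (hw k) n t ξ
  have hdD : dt ξ D = 0 := by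
    have h1 : HasDerivAt (fun s => ∑ j, (ξ j : ℂ) * fth (wf ν A V n s) ξ j) (∑ j, (ξ j : ℂ) * D j) t :=
      HasDerivAt.fun_sum fun j _ => (hderiv j).const_mul (ξ j : ℂ)
    have h2 : (fun s => ∑ j, (ξ j : ℂ) * fth (wf ν A V n s) ξ j) = fun _ => 0 := funext fun s => hdw s
    rw [h2] at h1
    exact h1.unique (hasDerivAt_const t (0 : ℂ))
  -- the nonlinear terms
  have g1 : lp ξ F1 = -nl (Vh ν A) (fth w) ξ :=
    (hBIL (Vh ν A) w hV1 (fin _ hV2) hV3.1 hwf1 hwf2 ξ).1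
  have g2 : lp ξ F2 = -nl (fth w) (Vh ν A) ξ :=
    (hBIL (Vh ν A) w hV1 (fin _ hV2) hV3.1 hwf1 hwf2 ξ).2
  have g3 : lp ξ F3 = -nl (fth w) (fth w) ξ := by
    have h1 := (hBIL (fth w) w hfw.1 (fin _ hfw.2.1) hfw.2.2.1 hwf1 hwf2 ξ).1
    rw [hfw.2.2.2.2.2.2] at h1
    exact h1
  have g4 : lp ξ F4 = -nl (fth A) (fth A) ξ := by
    have h1 := (hBIL (fth A) A hfA.1 (fin _ hfA.2.1) hfA.2.2.1 hA.1 hA.2.1 ξ).1
    rw [hfA.2.2.2.2.2.2] at h1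
    exact h1
  have hD2 : D = lp ξ Rv + (((-(4 * Real.pi ^ 2 * ν * ‖ξ‖ ^ 2) : ℝ) : ℂ) • fth w ξ +
      (((-e : ℝ) : ℂ) • (-nl (Vh ν A) (fth w) ξ) + (((-e : ℝ) : ℂ) • (-nl (fth w) (Vh ν A) ξ) +
      (((-1 : ℝ) : ℂ) • (-nl (fth w) (fth w) ξ) + ((N ^ 2 / 2 * e : ℝ) : ℂ) • (-nl (fth A) (fth A) ξ))))) := by
    have h1 := lp_of_dt hdD
    rw [hDeq] at h1
    rw [lp_add, lp_add, lp_add, lp_add, lp_add, lp_smul, lp_smul, lp_smul, lp_smul, lp_smul, g1, g2, g3, g4,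
      lp_of_dt (hdw t)] at h1
    rw [hDeq]
    exact h1.symm
  have hVh : ∀ k, Vh ν A ξ k = ((-(1 / (4 * ν)) : ℝ) : ℂ) * nl (fth A) (fth A) ξ k := by
    intro k
    show (-(1 / (4 * ν)) : ℝ) • nl (fth A) (fth A) ξ k = _
    rw [Complex.real_smul]
  have hnl := nl_exp hNLS hNLL e bV bw ξ
  rw [hasDerivAt_pi]
  intro k
  have hτ : HasDerivAt (fun s => Real.exp (-(2 * ta ν n s))) (e * (-(2 * (ν * N ^ 2)))) t := by
    have h1 : HasDerivAt (fun s => -(2 * ta ν n s)) (-(2 * (ν * N ^ 2))) t := by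
      unfold ta
      have h3 : (fun s => -(2 * (ν * NN n ^ 2 * s))) = fun s => -(2 * (ν * NN n ^ 2)) * s := by
        funext s
        ring
      rw [h3]
      have h2 := (hasDerivAt_id' t).const_mul (-(2 * (ν * NN n ^ 2)))
      rw [mul_one] at h2
      exact h2
    exact h1.exp
  have h1 : HasDerivAt (fun s => Real.exp (-(2 * ta ν n s)) • Vh ν A ξ k + fth (wf ν A V n s) ξ k)
      ((e * (-(2 * (ν * N ^ 2)))) • Vh ν A ξ k + D k) t := (hτ.smul_const (Vh ν A ξ k)).add (hderiv k)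
  refine h1.congr_deriv ?_
  show (e * (-(2 * (ν * N ^ 2)))) • Vh ν A ξ k + D k =
    (-(4 * Real.pi ^ 2 * ν * ‖ξ‖ ^ 2)) • (e • Vh ν A ξ k + fth w ξ k)
      + nl (fun η => e • Vh ν A η + fth w η) (fun η => e • Vh ν A η + fth w η) ξ k
      + (lp ξ Rv k + (4 * Real.pi ^ 2 * ν * ‖ξ‖ ^ 2 * e) • Vh ν A ξ k - (e ^ 2) • nl (Vh ν A) (Vh ν A) ξ k)
  rw [hnl]
  have h2 := congrFun hD2 k
  rw [h2]
  show (e * (-(2 * (ν * N ^ 2)))) • Vh ν A ξ k + (lp ξ Rv k + (((-(4 * Real.pi ^ 2 * ν * ‖ξ‖ ^ 2) : ℝ) : ℂ) * fth w ξ k +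
      (((-e : ℝ) : ℂ) * (-nl (Vh ν A) (fth w) ξ k) + (((-e : ℝ) : ℂ) * (-nl (fth w) (Vh ν A) ξ k) +
      (((-1 : ℝ) : ℂ) * (-nl (fth w) (fth w) ξ k) + ((N ^ 2 / 2 * e : ℝ) : ℂ) * (-nl (fth A) (fth A) ξ k)))))) =
    (-(4 * Real.pi ^ 2 * ν * ‖ξ‖ ^ 2)) • (e • Vh ν A ξ k + fth w ξ k)
      + ((e ^ 2) • nl (Vh ν A) (Vh ν A) ξ k + e • nl (Vh ν A) (fth w) ξ k + e • nl (fth w) (Vh ν A) ξ k +
        nl (fth w) (fth w) ξ k)
      + (lp ξ Rv k + (4 * Real.pi ^ 2 * ν * ‖ξ‖ ^ 2 * e) • Vh ν A ξ k - (e ^ 2) • nl (Vh ν A) (Vh ν A) ξ k)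
  simp only [Complex.real_smul]
  rw [hVh k]
  have hν' : (ν : ℂ) ≠ 0 := by exact_mod_cast hν.ne'
  push_cast
  field_simp
  ring

end Pool.Agent.Run7.h714.AX
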