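import Pool.Agent.Run7.h148.AX.Stm2

/-!
# Piece OC4 of project AX (helper148, MP_09540e_an)
-/

set_option autoImplicit false

open MeasureTheory Set Filter Topology
open scoped ENNReal ContDiff FourierTransform RealInnerProductSpace

namespace Pool.Agent.Run7.h714.AX

open Pool.Agent.Run7.h148.AX

/-- the Fourier transform of a real function -/
noncomputable def hr (ρ : E3 → ℝ) (ξ : E3) : ℂ := 𝓕 (fun x => ((ρ x : ℝ) : ℂ)) ξ

theorem int_ofReal {ρ : E3 → ℝ} (hρ : Continuous ρ) (hc : HasCompactSupport ρ) :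
    Integrable (fun x => ((ρ x : ℝ) : ℂ)) :=
  (hρ.integrable_of_hasCompactSupport hc).ofReal

theorem sch {ρ : E3 → ℝ} (hρ : Cc ρ) : Continuous (hr ρ) ∧
    ∀ k : ℕ, ∃ C : ℝ, 0 ≤ C ∧ ∀ ξ, (1 + ‖ξ‖) ^ k * ‖hr ρ ξ‖ ≤ C := by
  have h1 : ContDiff ℝ ∞ (fun x => ((ρ x : ℝ) : ℂ)) := Complex.ofRealCLM.contDiff.comp hρ.1
  have h2 : HasCompactSupport (fun x => ((ρ x : ℝ) : ℂ)) := hρ.2.comp_left (g := fun r : ℝ => (r : ℂ)) (by simp)
  set S : SchwartzMap E3 ℂ := h2.toSchwartzMap h1 with hS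
  have h3 : ((𝓕 S : SchwartzMap E3 ℂ) : E3 → ℂ) = hr ρ := by
    rw [SchwartzMap.fourier_coe]
    rfl
  refine ⟨by rw [← h3]; exact (𝓕 S).continuous, fun k => ?_⟩
  refine ⟨2 ^ k * (Finset.Iic ((k, 0) : ℕ × ℕ)).sup (fun m => SchwartzMap.seminorm ℝ m.1 m.2) (𝓕 S),
    by positivity, fun ξ => ?_⟩
  have h4 := SchwartzMap.one_add_le_sup_seminorm_apply (𝕜 := ℝ) (m := ((k, 0) : ℕ × ℕ)) (k := k) (n := 0)
    le_rfl le_rfl (𝓕 S) ξ
  rw [norm_iteratedFDeriv_zero, h3] at h4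
  exact h4

theorem l1 {ρ : E3 → ℝ} (hρ : Cc ρ) (k : ℕ) :
    ∃ D : ℝ, 0 ≤ D ∧ (∫⁻ ξ, wk k ξ * ‖hr ρ ξ‖ₑ) ≤ ENNReal.ofReal D := by
  obtain ⟨C, hC0, hC⟩ := (sch hρ).2 (k + 4)
  have hfin : (∫⁻ ξ : E3, ENNReal.ofReal ((1 + ‖ξ‖) ^ (-(4 : ℝ)))) < ⊤ := by
    apply finite_integral_one_add_norm
    rw [finrank_euclideanSpace_fin]
    norm_num
  have h1 : (∫⁻ ξ, wk k ξ * ‖hr ρ ξ‖ₑ) ≤
      ENNReal.ofReal C * ∫⁻ ξ : E3, ENNReal.ofReal ((1 + ‖ξ‖) ^ (-(4 : ℝ))) := by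
    rw [← lintegral_const_mul' _ _ ENNReal.ofReal_ne_top]
    refine lintegral_mono fun ξ => ?_
    show wk k ξ * ‖hr ρ ξ‖ₑ ≤ ENNReal.ofReal C * ENNReal.ofReal ((1 + ‖ξ‖) ^ (-(4 : ℝ)))
    unfold wk
    have hp : (0 : ℝ) < 1 + ‖ξ‖ := by positivity
    rw [← ofReal_norm, ← ENNReal.ofReal_mul (by positivity), ← ENNReal.ofReal_mul hC0]
    apply ENNReal.ofReal_le_ofReal
    rw [Real.rpow_neg hp.le, ← div_eq_mul_inv, le_div_iff₀ (by positivity)]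
    have h2 : (1 + ‖ξ‖) ^ (4 : ℝ) = (1 + ‖ξ‖) ^ (4 : ℕ) := by
      rw [← Real.rpow_natCast]
      norm_num
    rw [h2]
    calc (1 + ‖ξ‖) ^ k * ‖hr ρ ξ‖ * (1 + ‖ξ‖) ^ 4 = (1 + ‖ξ‖) ^ (k + 4) * ‖hr ρ ξ‖ := by ring
      _ ≤ C := hC ξ
  have h2 : (∫⁻ ξ, wk k ξ * ‖hr ρ ξ‖ₑ) ≠ ⊤ :=
    (h1.trans_lt (ENNReal.mul_lt_top ENNReal.ofReal_lt_top hfin)).ne
  exact ⟨(∫⁻ ξ, wk k ξ * ‖hr ρ ξ‖ₑ).toReal, ENNReal.toReal_nonneg, (ENNReal.ofReal_toReal h2).ge⟩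

theorem wt_le (k : ℕ) (ξ ζ : E3) : (1 + ‖ξ‖) ^ k ≤ (1 + ‖ζ‖) ^ k * (1 + ‖ξ - ζ‖) ^ k := by
  rw [← mul_pow]
  refine pow_le_pow_left₀ (by positivity) ?_ k
  have h1 : ‖ξ‖ ≤ ‖ξ - ζ‖ + ‖ζ‖ := by
    calc ‖ξ‖ = ‖(ξ - ζ) + ζ‖ := by rw [sub_add_cancel]
      _ ≤ _ := norm_add_le _ _
  nlinarith [mul_nonneg (norm_nonneg ζ) (norm_nonneg (ξ - ζ))]

theorem shift_pt {ρ : E3 → ℝ} {k : ℕ} {C : ℝ} (hC : ∀ ξ, (1 + ‖ξ‖) ^ k * ‖hr ρ ξ‖ ≤ C) (ξ ζ : E3) :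
    (1 + ‖ξ‖) ^ k * ‖hr ρ (ξ - ζ)‖ ≤ (1 + ‖ζ‖) ^ k * C := by
  calc (1 + ‖ξ‖) ^ k * ‖hr ρ (ξ - ζ)‖ ≤ ((1 + ‖ζ‖) ^ k * (1 + ‖ξ - ζ‖) ^ k) * ‖hr ρ (ξ - ζ)‖ :=
        mul_le_mul_of_nonneg_right (wt_le k ξ ζ) (norm_nonneg _)
    _ = (1 + ‖ζ‖) ^ k * ((1 + ‖ξ - ζ‖) ^ k * ‖hr ρ (ξ - ζ)‖) := by ring
    _ ≤ _ := mul_le_mul_of_nonneg_left (hC _) (by positivity)

theorem shift_l1 {ρ : E3 → ℝ} {k : ℕ} {D : ℝ} (hD : (∫⁻ ξ, wk k ξ * ‖hr ρ ξ‖ₑ) ≤ ENNReal.ofReal D)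
    (ζ : E3) : (∫⁻ ξ, wk k ξ * ‖hr ρ (ξ - ζ)‖ₑ) ≤ ENNReal.ofReal ((1 + ‖ζ‖) ^ k * D) := by
  calc (∫⁻ ξ, wk k ξ * ‖hr ρ (ξ - ζ)‖ₑ)
      ≤ ∫⁻ ξ, ENNReal.ofReal ((1 + ‖ζ‖) ^ k) * (wk k (ξ - ζ) * ‖hr ρ (ξ - ζ)‖ₑ) := by
        refine lintegral_mono fun ξ => ?_
        show wk k ξ * ‖hr ρ (ξ - ζ)‖ₑ ≤
          ENNReal.ofReal ((1 + ‖ζ‖) ^ k) * (wk k (ξ - ζ) * ‖hr ρ (ξ - ζ)‖ₑ)
        rw [← mul_assoc]
        refine mul_le_mul' ?_ le_rfl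
        unfold wk
        rw [← ENNReal.ofReal_mul (by positivity)]
        exact ENNReal.ofReal_le_ofReal (wt_le k ξ ζ)
    _ = ENNReal.ofReal ((1 + ‖ζ‖) ^ k) * ∫⁻ ξ, wk k (ξ - ζ) * ‖hr ρ (ξ - ζ)‖ₑ :=
        lintegral_const_mul' _ _ ENNReal.ofReal_ne_top
    _ = ENNReal.ofReal ((1 + ‖ζ‖) ^ k) * ∫⁻ ξ, wk k ξ * ‖hr ρ ξ‖ₑ := by
        rw [lintegral_sub_right_eq_self (fun ξ => wk k ξ * ‖hr ρ ξ‖ₑ) ζ]
    _ ≤ ENNReal.ofReal ((1 + ‖ζ‖) ^ k) * ENNReal.ofReal D := mul_le_mul' le_rfl hD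
    _ = _ := (ENNReal.ofReal_mul (by positivity)).symm

/-- the frequency vector -/
noncomputable def zv (a : ℝ) : E3 := (a / (2 * Real.pi)) • EuclideanSpace.single (2 : Fin 3) (1 : ℝ)

theorem inner_zv (a : ℝ) (x : E3) : ⟪x, zv a⟫ = a * x 2 / (2 * Real.pi) := by
  unfold zv
  rw [inner_smul_right, EuclideanSpace.inner_single_right]
  simp
  ring

theorem norm_zv (a : ℝ) : ‖zv a‖ ≤ |a| := by
  unfold zv
  rw [norm_smul, PiLp.norm_single, norm_one, mul_one, Real.norm_eq_abs, abs_div,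
    abs_of_pos Real.two_pi_pos]
  refine div_le_self (abs_nonneg _) ?_
  have := Real.pi_gt_three
  linarith

theorem ft_shift (ρ : E3 → ℝ) (a : ℝ) (ξ : E3) :
    hr ρ (ξ - zv a) = ∫ x, Complex.exp ((a * x 2 : ℝ) * Complex.I) * (Real.fourierChar (-⟪x, ξ⟫) • ((ρ x : ℝ) : ℂ)) := by
  unfold hr
  rw [Real.fourier_eq]
  refine integral_congr_ae (ae_of_all _ fun x => ?_)
  show Real.fourierChar (-⟪x, ξ - zv a⟫) • ((ρ x : ℝ) : ℂ) =
    Complex.exp ((a * x 2 : ℝ) * Complex.I) * (Real.fourierChar (-⟪x, ξ⟫) • ((ρ x : ℝ) : ℂ))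
  rw [inner_sub_right, inner_zv, Circle.smul_def, Circle.smul_def, Real.fourierChar_apply,
    Real.fourierChar_apply, smul_eq_mul, smul_eq_mul, ← mul_assoc, ← Complex.exp_add]
  congr 2
  push_cast
  have h1 : (Real.pi : ℂ) ≠ 0 := by exact_mod_cast Real.pi_ne_zero
  field_simp
  ring

theorem zv_neg (a : ℝ) : zv (-a) = -zv a := by
  unfold zv
  rw [neg_div, neg_smul]

theorem int_shift {ρ : E3 → ℝ} (hρ : Cc ρ) (a : ℝ) (ξ : E3) :
    Integrable fun x => Complex.exp ((a * x 2 : ℝ) * Complex.I) * (Real.fourierChar (-⟪x, ξ⟫) • ((ρ x : ℝ) : ℂ)) := by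
  have h1 : Integrable fun x => Real.fourierChar (-⟪x, ξ⟫) • ((ρ x : ℝ) : ℂ) :=
    (Real.fourierIntegral_convergent_iff ξ).2 (int_ofReal hρ.1.continuous hρ.2)
  refine h1.bdd_mul (c := 1) ?_ (ae_of_all _ fun x => ?_)
  · refine Continuous.aestronglyMeasurable ?_
    fun_prop
  · rw [Complex.norm_exp_ofReal_mul_I]

theorem ft_cos {ρ : E3 → ℝ} (hρ : Cc ρ) (a : ℝ) (ξ : E3) :
    𝓕 (fun x : E3 => ((ρ x * Real.cos (a * x 2) : ℝ) : ℂ)) ξ = (hr ρ (ξ - zv a) + hr ρ (ξ - zv (-a))) / 2 := by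
  rw [ft_shift, ft_shift, ← integral_add (int_shift hρ a ξ) (int_shift hρ (-a) ξ), ← integral_div, Real.fourier_eq]
  refine integral_congr_ae (ae_of_all _ fun x => ?_)
  show Real.fourierChar (-⟪x, ξ⟫) • ((ρ x * Real.cos (a * x 2) : ℝ) : ℂ) =
    (Complex.exp ((a * x 2 : ℝ) * Complex.I) * (Real.fourierChar (-⟪x, ξ⟫) • ((ρ x : ℝ) : ℂ)) +
      Complex.exp ((-a * x 2 : ℝ) * Complex.I) * (Real.fourierChar (-⟪x, ξ⟫) • ((ρ x : ℝ) : ℂ))) / 2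
  rw [Circle.smul_def, Circle.smul_def, smul_eq_mul, smul_eq_mul, Complex.ofReal_mul, Complex.ofReal_cos]
  have h1 : ((-a * x 2 : ℝ) : ℂ) = -((a * x 2 : ℝ) : ℂ) := by push_cast; ring
  rw [h1, Complex.cos]
  ring

theorem ft_sin {ρ : E3 → ℝ} (hρ : Cc ρ) (a : ℝ) (ξ : E3) :
    𝓕 (fun x : E3 => ((ρ x * Real.sin (a * x 2) : ℝ) : ℂ)) ξ =
      (hr ρ (ξ - zv a) - hr ρ (ξ - zv (-a))) / 2 * (-Complex.I) := by
  rw [ft_shift, ft_shift, ← integral_sub (int_shift hρ a ξ) (int_shift hρ (-a) ξ), ← integral_div,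
    ← integral_mul_const, Real.fourier_eq]
  refine integral_congr_ae (ae_of_all _ fun x => ?_)
  show Real.fourierChar (-⟪x, ξ⟫) • ((ρ x * Real.sin (a * x 2) : ℝ) : ℂ) =
    (Complex.exp ((a * x 2 : ℝ) * Complex.I) * (Real.fourierChar (-⟪x, ξ⟫) • ((ρ x : ℝ) : ℂ)) -
      Complex.exp ((-a * x 2 : ℝ) * Complex.I) * (Real.fourierChar (-⟪x, ξ⟫) • ((ρ x : ℝ) : ℂ))) / 2 * (-Complex.I)
  rw [Circle.smul_def, Circle.smul_def, smul_eq_mul, smul_eq_mul, Complex.ofReal_mul, Complex.ofReal_sin]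
  have h1 : ((-a * x 2 : ℝ) : ℂ) = -((a * x 2 : ℝ) : ℂ) := by push_cast; ring
  rw [h1, Complex.sin]
  ring

theorem ft_const (c : ℝ) (g : E3 → ℝ) (ξ : E3) :
    𝓕 (fun x : E3 => ((c * g x : ℝ) : ℂ)) ξ = (c : ℂ) * 𝓕 (fun x : E3 => ((g x : ℝ) : ℂ)) ξ := by
  rw [Real.fourier_eq, Real.fourier_eq, ← integral_const_mul]
  refine integral_congr_ae (ae_of_all _ fun x => ?_)
  show Real.fourierChar (-⟪x, ξ⟫) • ((c * g x : ℝ) : ℂ) = (c : ℂ) * (Real.fourierChar (-⟪x, ξ⟫) • ((g x : ℝ) : ℂ))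
  rw [Circle.smul_def, Circle.smul_def, smul_eq_mul, smul_eq_mul, Complex.ofReal_mul]
  ring

theorem ft_add {f g : E3 → ℝ} (hf : Integrable fun x => ((f x : ℝ) : ℂ)) (hg : Integrable fun x => ((g x : ℝ) : ℂ))
    (ξ : E3) : 𝓕 (fun x : E3 => ((f x + g x : ℝ) : ℂ)) ξ =
      𝓕 (fun x : E3 => ((f x : ℝ) : ℂ)) ξ + 𝓕 (fun x : E3 => ((g x : ℝ) : ℂ)) ξ := by
  rw [Real.fourier_eq, Real.fourier_eq, Real.fourier_eq,
    ← integral_add ((Real.fourierIntegral_convergent_iff ξ).2 hf) ((Real.fourierIntegral_convergent_iff ξ).2 hg)]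
  refine integral_congr_ae (ae_of_all _ fun x => ?_)
  show Real.fourierChar (-⟪x, ξ⟫) • ((f x + g x : ℝ) : ℂ) =
    Real.fourierChar (-⟪x, ξ⟫) • ((f x : ℝ) : ℂ) + Real.fourierChar (-⟪x, ξ⟫) • ((g x : ℝ) : ℂ)
  rw [Complex.ofReal_add, smul_add]

/-- `τ^l e^{-jτ} ≤ C e^{-τ/2}` -/
theorem exp_bd (l j : ℕ) (hj : 1 ≤ j) (τ : ℝ) (hτ : 0 ≤ τ) :
    τ ^ l * Real.exp (-(j * τ)) ≤ (2 ^ l * (l.factorial : ℝ)) * Real.exp (-(τ / 2)) := by
  have h1 := Real.pow_div_factorial_le_exp (τ / 2) (by positivity) l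
  have hl : (0 : ℝ) < l.factorial := by exact_mod_cast l.factorial_pos
  rw [div_le_iff₀ hl, div_pow, div_le_iff₀ (by positivity)] at h1
  have h2 : Real.exp (-(j * τ)) ≤ Real.exp (-τ) := by
    apply Real.exp_le_exp.2
    have : (1 : ℝ) ≤ j := by exact_mod_cast hj
    nlinarith
  have h3 : Real.exp (τ / 2) * Real.exp (-τ) = Real.exp (-(τ / 2)) := by
    rw [← Real.exp_add]
    congr 1
    ring
  calc τ ^ l * Real.exp (-(j * τ)) ≤ τ ^ l * Real.exp (-τ) := mul_le_mul_of_nonneg_left h2 (by positivity)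
    _ ≤ (Real.exp (τ / 2) * l.factorial * 2 ^ l) * Real.exp (-τ) :=
        mul_le_mul_of_nonneg_right h1 (Real.exp_pos _).le
    _ = (2 ^ l * (l.factorial : ℝ)) * (Real.exp (τ / 2) * Real.exp (-τ)) := by ring
    _ = _ := by rw [h3]

/-- the statement for one family, with integrability -/
def Good (ν : ℝ) (p : ℤ) (f : Fam) : Prop :=
  (∀ n t, Integrable fun x => ((f n t x : ℝ) : ℂ)) ∧
  (∀ n, Measurable fun z : ℝ × E3 => 𝓕 (fun x => ((f n z.1 x : ℝ) : ℂ)) z.2) ∧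
  ∀ k : ℕ, ∃ C : ℝ, 0 ≤ C ∧ ∀ (n : ℕ) (t : ℝ), 0 ≤ t →
    (∀ ξ, (1 + ‖ξ‖) ^ k * ‖𝓕 (fun x => ((f n t x : ℝ) : ℂ)) ξ‖
      ≤ C * NN n ^ (p + k) * Real.exp (-(ta ν n t / 2))) ∧
    (∫⁻ ξ, wk k ξ * ‖𝓕 (fun x => ((f n t x : ℝ) : ℂ)) ξ‖ₑ)
      ≤ ENNReal.ofReal (C * NN n ^ (p + k) * Real.exp (-(ta ν n t / 2)))

theorem meas_wk (k : ℕ) : Measurable (wk k) := by
  unfold wk
  fun_prop

theorem meas_term (k : ℕ) (t : ℝ) (F : ℝ → E3 → ℂ) (hF : Measurable fun z : ℝ × E3 => F z.1 z.2) :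
    Measurable fun ξ => wk k ξ * ‖F t ξ‖ₑ := by
  have h5 : Measurable fun ξ : E3 => ((t, ξ) : ℝ × E3) := measurable_const.prodMk measurable_id
  have h6 : Measurable fun ξ : E3 => F t ξ := hF.comp h5
  exact (meas_wk k).mul h6.enorm

theorem NN_pos (n : ℕ) : 0 < NN n := by unfold NN; positivity

theorem one_le_NN (n : ℕ) : 1 ≤ NN n := by
  unfold NN
  have : (0 : ℝ) ≤ n := Nat.cast_nonneg n
  linarith

theorem good_add {ν : ℝ} {p : ℤ} {f g : Fam} (hf : Good ν p f) (hg : Good ν p g) : Good ν p (f + g) := by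
  obtain ⟨f1, f2, f3⟩ := hf
  obtain ⟨g1, g2, g3⟩ := hg
  have key : ∀ n t ξ, 𝓕 (fun x => (((f + g) n t x : ℝ) : ℂ)) ξ =
      𝓕 (fun x => ((f n t x : ℝ) : ℂ)) ξ + 𝓕 (fun x => ((g n t x : ℝ) : ℂ)) ξ :=
    fun n t ξ => ft_add (f1 n t) (g1 n t) ξ
  refine ⟨fun n t => ?_, fun n => ?_, fun k => ?_⟩
  · have := (f1 n t).add (g1 n t)
    refine this.congr (ae_of_all _ fun x => ?_)
    show ((f n t x : ℝ) : ℂ) + ((g n t x : ℝ) : ℂ) = ((f n t x + g n t x : ℝ) : ℂ)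
    push_cast
    rfl
  · have h4 : (fun z : ℝ × E3 => 𝓕 (fun x => (((f + g) n z.1 x : ℝ) : ℂ)) z.2) =
        (fun z : ℝ × E3 => 𝓕 (fun x => ((f n z.1 x : ℝ) : ℂ)) z.2) +
          fun z : ℝ × E3 => 𝓕 (fun x => ((g n z.1 x : ℝ) : ℂ)) z.2 := funext fun z => key n z.1 z.2
    rw [h4]
    exact (f2 n).add (g2 n)
  · obtain ⟨C, hC0, hC⟩ := f3 k
    obtain ⟨D, hD0, hD⟩ := g3 k
    refine ⟨C + D, add_nonneg hC0 hD0, fun n t ht => ?_⟩
    obtain ⟨hC1, hC2⟩ := hC n t ht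
    obtain ⟨hD1, hD2⟩ := hD n t ht
    have hN := NN_pos n
    constructor
    · intro ξ
      rw [key]
      calc (1 + ‖ξ‖) ^ k * ‖𝓕 (fun x => ((f n t x : ℝ) : ℂ)) ξ + 𝓕 (fun x => ((g n t x : ℝ) : ℂ)) ξ‖
          ≤ (1 + ‖ξ‖) ^ k * (‖𝓕 (fun x => ((f n t x : ℝ) : ℂ)) ξ‖ + ‖𝓕 (fun x => ((g n t x : ℝ) : ℂ)) ξ‖) :=
            mul_le_mul_of_nonneg_left (norm_add_le _ _) (by positivity)
        _ = (1 + ‖ξ‖) ^ k * ‖𝓕 (fun x => ((f n t x : ℝ) : ℂ)) ξ‖ +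
            (1 + ‖ξ‖) ^ k * ‖𝓕 (fun x => ((g n t x : ℝ) : ℂ)) ξ‖ := by ring
        _ ≤ _ := add_le_add (hC1 ξ) (hD1 ξ)
        _ = _ := by ring
    · have e1 : (C + D) * NN n ^ (p + k) * Real.exp (-(ta ν n t / 2)) =
          C * NN n ^ (p + k) * Real.exp (-(ta ν n t / 2)) + D * NN n ^ (p + k) * Real.exp (-(ta ν n t / 2)) := by
        ring
      rw [e1, ENNReal.ofReal_add (by positivity) (by positivity)]
      refine le_trans ?_ (add_le_add hC2 hD2)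
      rw [← lintegral_add_left]
      · refine lintegral_mono fun ξ => ?_
        show wk k ξ * ‖𝓕 (fun x => (((f + g) n t x : ℝ) : ℂ)) ξ‖ₑ ≤
          wk k ξ * ‖𝓕 (fun x => ((f n t x : ℝ) : ℂ)) ξ‖ₑ + wk k ξ * ‖𝓕 (fun x => ((g n t x : ℝ) : ℂ)) ξ‖ₑ
        rw [key, ← mul_add]
        exact mul_le_mul' le_rfl (enorm_add_le _ _)
      · exact meas_term k t (fun s ξ => 𝓕 (fun x => ((f n s x : ℝ) : ℂ)) ξ) (f2 n)

theorem good_smul {ν : ℝ} {p : ℤ} {f : Fam} (a : ℝ) (hf : Good ν p f) : Good ν p (a • f) := by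
  obtain ⟨f1, f2, f3⟩ := hf
  have key : ∀ n t ξ, 𝓕 (fun x => (((a • f) n t x : ℝ) : ℂ)) ξ = (a : ℂ) * 𝓕 (fun x => ((f n t x : ℝ) : ℂ)) ξ :=
    fun n t ξ => ft_const a (f n t) ξ
  refine ⟨fun n t => ?_, fun n => ?_, fun k => ?_⟩
  · have := (f1 n t).const_mul (a : ℂ)
    refine this.congr (ae_of_all _ fun x => ?_)
    show (a : ℂ) * ((f n t x : ℝ) : ℂ) = ((a * f n t x : ℝ) : ℂ)
    push_cast
    rfl
  · have h4 : (fun z : ℝ × E3 => 𝓕 (fun x => (((a • f) n z.1 x : ℝ) : ℂ)) z.2) =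
        fun z : ℝ × E3 => (a : ℂ) * 𝓕 (fun x => ((f n z.1 x : ℝ) : ℂ)) z.2 := funext fun z => key n z.1 z.2
    rw [h4]
    exact (f2 n).const_mul (a : ℂ)
  · obtain ⟨C, hC0, hC⟩ := f3 k
    refine ⟨|a| * C, mul_nonneg (abs_nonneg _) hC0, fun n t ht => ?_⟩
    obtain ⟨hC1, hC2⟩ := hC n t ht
    have hN := NN_pos n
    constructor
    · intro ξ
      rw [key, norm_mul, Complex.norm_real, Real.norm_eq_abs]
      calc (1 + ‖ξ‖) ^ k * (|a| * ‖𝓕 (fun x => ((f n t x : ℝ) : ℂ)) ξ‖)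
          = |a| * ((1 + ‖ξ‖) ^ k * ‖𝓕 (fun x => ((f n t x : ℝ) : ℂ)) ξ‖) := by ring
        _ ≤ |a| * (C * NN n ^ (p + k) * Real.exp (-(ta ν n t / 2))) :=
            mul_le_mul_of_nonneg_left (hC1 ξ) (abs_nonneg _)
        _ = _ := by ring
    · have e1 : |a| * C * NN n ^ (p + k) * Real.exp (-(ta ν n t / 2)) =
          |a| * (C * NN n ^ (p + k) * Real.exp (-(ta ν n t / 2))) := by ring
      rw [e1, ENNReal.ofReal_mul (abs_nonneg _)]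
      refine le_trans (le_of_eq ?_) (mul_le_mul' le_rfl hC2)
      rw [← lintegral_const_mul' _ _ ENNReal.ofReal_ne_top]
      refine lintegral_congr fun ξ => ?_
      rw [key, enorm_mul, ← ofReal_norm (a : ℂ), Complex.norm_real, Real.norm_eq_abs]
      ring

/-- families with a time factor and a space factor whose transform is a combination of two shifts -/
theorem good_gen {ν : ℝ} (hν : 0 < ν) {p q : ℤ} (hq : q ≤ p) (l j : ℕ) (hj : 1 ≤ j) (k₀ : ℤ) {ρ : E3 → ℝ} (hρ : Cc ρ)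
    (f : Fam) (g : ℕ → E3 → ℝ) (hfg : ∀ n t x, f n t x = NN n ^ q * ta ν n t ^ l * Real.exp (-(j * ta ν n t)) * g n x)
    (hgc : ∀ n, Continuous (g n)) (hgs : ∀ n, HasCompactSupport (g n)) (w₁ w₂ : ℂ) (h₁ : ‖w₁‖ ≤ 1) (h₂ : ‖w₂‖ ≤ 1)
    (hF : ∀ n ξ, 𝓕 (fun x => ((g n x : ℝ) : ℂ)) ξ =
      w₁ * hr ρ (ξ - zv (k₀ * NN n)) + w₂ * hr ρ (ξ - zv (-(k₀ * NN n)))) : Good ν p f := by
  obtain ⟨hcont, hdec⟩ := sch hρ
  have key : ∀ n t ξ, 𝓕 (fun x => ((f n t x : ℝ) : ℂ)) ξ =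
      ((NN n ^ q * ta ν n t ^ l * Real.exp (-(j * ta ν n t)) : ℝ) : ℂ) *
        (w₁ * hr ρ (ξ - zv (k₀ * NN n)) + w₂ * hr ρ (ξ - zv (-(k₀ * NN n)))) := by
    intro n t ξ
    rw [← hF, ← ft_const]
    have h3 : (fun x => ((f n t x : ℝ) : ℂ)) =
        fun x => ((NN n ^ q * ta ν n t ^ l * Real.exp (-(j * ta ν n t)) * g n x : ℝ) : ℂ) := by
      funext x
      rw [hfg]
    rw [h3]
  have hzeta : ∀ n : ℕ, 1 + ‖zv (k₀ * NN n)‖ ≤ (1 + |(k₀ : ℝ)|) * NN n ∧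
      1 + ‖zv (-(k₀ * NN n))‖ ≤ (1 + |(k₀ : ℝ)|) * NN n := by
    intro n
    have h3 := norm_zv (k₀ * NN n)
    rw [abs_mul, abs_of_pos (NN_pos n)] at h3
    have h4 := one_le_NN n
    have h5 : ‖zv (-(k₀ * NN n))‖ = ‖zv (k₀ * NN n)‖ := by rw [zv_neg, norm_neg]
    rw [h5]
    constructor <;> nlinarith
  refine ⟨fun n t => ?_, fun n => ?_, fun k => ?_⟩
  · have h3 := ((int_ofReal (hgc n) (hgs n)).const_mul
      ((NN n ^ q * ta ν n t ^ l * Real.exp (-(j * ta ν n t)) : ℝ) : ℂ))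
    refine h3.congr (ae_of_all _ fun x => ?_)
    show ((NN n ^ q * ta ν n t ^ l * Real.exp (-(j * ta ν n t)) : ℝ) : ℂ) * ((g n x : ℝ) : ℂ) = ((f n t x : ℝ) : ℂ)
    rw [hfg]
    push_cast
    rfl
  · have h3 : Continuous fun z : ℝ × E3 => ((NN n ^ q * ta ν n z.1 ^ l * Real.exp (-(j * ta ν n z.1)) : ℝ) : ℂ) *
        (w₁ * hr ρ (z.2 - zv (k₀ * NN n)) + w₂ * hr ρ (z.2 - zv (-(k₀ * NN n)))) := by
      unfold ta
      fun_prop
    have h4 : (fun z : ℝ × E3 => 𝓕 (fun x => ((f n z.1 x : ℝ) : ℂ)) z.2) = _ := funext fun z => key n z.1 z.2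
    rw [h4]
    exact h3.measurable
  · obtain ⟨C, hC0, hC⟩ := hdec k
    obtain ⟨D, hD0, hD⟩ := l1 hρ k
    set B : ℝ := 2 ^ l * (l.factorial : ℝ) with hB
    have hB0 : 0 ≤ B := by positivity
    refine ⟨B * (1 + |(k₀ : ℝ)|) ^ k * (2 * (C + D)), by positivity, fun n t ht => ?_⟩
    have hN := NN_pos n
    have hN1 := one_le_NN n
    have hτ : 0 ≤ ta ν n t := by
      unfold ta
      positivity
    have hcn : |NN n ^ q * ta ν n t ^ l * Real.exp (-(j * ta ν n t))| ≤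
        NN n ^ p * (B * Real.exp (-(ta ν n t / 2))) := by
      rw [abs_of_nonneg (by positivity), mul_assoc]
      exact mul_le_mul (zpow_le_zpow_right₀ hN1 hq) (exp_bd l j hj _ hτ) (by positivity) (by positivity)
    have hz1 : (1 + ‖zv (k₀ * NN n)‖) ^ k ≤ (1 + |(k₀ : ℝ)|) ^ k * NN n ^ k := by
      rw [← mul_pow]
      exact pow_le_pow_left₀ (by positivity) (hzeta n).1 k
    have hz2 : (1 + ‖zv (-(k₀ * NN n))‖) ^ k ≤ (1 + |(k₀ : ℝ)|) ^ k * NN n ^ k := by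
      rw [← mul_pow]
      exact pow_le_pow_left₀ (by positivity) (hzeta n).2 k
    have hzp : NN n ^ (p + k) = NN n ^ p * NN n ^ k := by
      rw [zpow_add₀ hN.ne', zpow_natCast]
    constructor
    · intro ξ
      rw [key, norm_mul, Complex.norm_real, Real.norm_eq_abs]
      have h3 : (1 + ‖ξ‖) ^ k * ‖w₁ * hr ρ (ξ - zv (k₀ * NN n)) + w₂ * hr ρ (ξ - zv (-(k₀ * NN n)))‖ ≤
          2 * ((1 + |(k₀ : ℝ)|) ^ k * NN n ^ k * C) := by
        have h4 : ‖w₁ * hr ρ (ξ - zv (k₀ * NN n)) + w₂ * hr ρ (ξ - zv (-(k₀ * NN n)))‖ ≤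
            ‖hr ρ (ξ - zv (k₀ * NN n))‖ + ‖hr ρ (ξ - zv (-(k₀ * NN n)))‖ := by
          refine (norm_add_le _ _).trans (add_le_add ?_ ?_)
          · rw [norm_mul]
            exact mul_le_of_le_one_left (norm_nonneg _) h₁
          · rw [norm_mul]
            exact mul_le_of_le_one_left (norm_nonneg _) h₂
        have h5 := shift_pt hC ξ (zv (k₀ * NN n))
        have h6 := shift_pt hC ξ (zv (-(k₀ * NN n)))
        have h7 := mul_le_mul_of_nonneg_right hz1 hC0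
        have h8 := mul_le_mul_of_nonneg_right hz2 hC0
        have h9 := mul_le_mul_of_nonneg_left h4 (show 0 ≤ (1 + ‖ξ‖) ^ k by positivity)
        rw [mul_add] at h9
        linarith
      calc (1 + ‖ξ‖) ^ k * (|NN n ^ q * ta ν n t ^ l * Real.exp (-(j * ta ν n t))| *
            ‖w₁ * hr ρ (ξ - zv (k₀ * NN n)) + w₂ * hr ρ (ξ - zv (-(k₀ * NN n)))‖)
          = |NN n ^ q * ta ν n t ^ l * Real.exp (-(j * ta ν n t))| * ((1 + ‖ξ‖) ^ k *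
            ‖w₁ * hr ρ (ξ - zv (k₀ * NN n)) + w₂ * hr ρ (ξ - zv (-(k₀ * NN n)))‖) := by ring
        _ ≤ (NN n ^ p * (B * Real.exp (-(ta ν n t / 2)))) * (2 * ((1 + |(k₀ : ℝ)|) ^ k * NN n ^ k * C)) :=
            mul_le_mul hcn h3 (by positivity) (by positivity)
        _ ≤ (NN n ^ p * (B * Real.exp (-(ta ν n t / 2)))) * (2 * ((1 + |(k₀ : ℝ)|) ^ k * NN n ^ k * (C + D))) := by
            refine mul_le_mul_of_nonneg_left ?_ (by positivity)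
            refine mul_le_mul_of_nonneg_left ?_ (by norm_num)
            exact mul_le_mul_of_nonneg_left (by linarith) (by positivity)
        _ = _ := by rw [hzp]; ring
    · calc (∫⁻ ξ, wk k ξ * ‖𝓕 (fun x => ((f n t x : ℝ) : ℂ)) ξ‖ₑ)
          ≤ ∫⁻ ξ, ENNReal.ofReal (NN n ^ p * (B * Real.exp (-(ta ν n t / 2)))) *
              (wk k ξ * ‖hr ρ (ξ - zv (k₀ * NN n))‖ₑ + wk k ξ * ‖hr ρ (ξ - zv (-(k₀ * NN n)))‖ₑ) := by
            refine lintegral_mono fun ξ => ?_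
            show wk k ξ * ‖𝓕 (fun x => ((f n t x : ℝ) : ℂ)) ξ‖ₑ ≤
              ENNReal.ofReal (NN n ^ p * (B * Real.exp (-(ta ν n t / 2)))) *
              (wk k ξ * ‖hr ρ (ξ - zv (k₀ * NN n))‖ₑ + wk k ξ * ‖hr ρ (ξ - zv (-(k₀ * NN n)))‖ₑ)
            rw [key, enorm_mul, ← mul_add, ← mul_assoc, ← mul_assoc, mul_comm (wk k ξ)]
            refine mul_le_mul' (mul_le_mul' ?_ le_rfl) ?_
            · rw [← ofReal_norm, Complex.norm_real, Real.norm_eq_abs]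
              exact ENNReal.ofReal_le_ofReal hcn
            · refine (enorm_add_le _ _).trans (add_le_add ?_ ?_)
              · rw [enorm_mul]
                refine (mul_le_mul' ?_ le_rfl).trans (one_mul _).le
                rw [← ofReal_norm, ← ENNReal.ofReal_one]
                exact ENNReal.ofReal_le_ofReal h₁
              · rw [enorm_mul]
                refine (mul_le_mul' ?_ le_rfl).trans (one_mul _).le
                rw [← ofReal_norm, ← ENNReal.ofReal_one]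
                exact ENNReal.ofReal_le_ofReal h₂
        _ = ENNReal.ofReal (NN n ^ p * (B * Real.exp (-(ta ν n t / 2)))) *
              ((∫⁻ ξ, wk k ξ * ‖hr ρ (ξ - zv (k₀ * NN n))‖ₑ) +
                ∫⁻ ξ, wk k ξ * ‖hr ρ (ξ - zv (-(k₀ * NN n)))‖ₑ) := by
            rw [lintegral_const_mul' _ _ ENNReal.ofReal_ne_top, lintegral_add_left]
            exact (meas_wk k).mul (hcont.comp (continuous_id.sub continuous_const)).measurable.enorm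
        _ ≤ ENNReal.ofReal (NN n ^ p * (B * Real.exp (-(ta ν n t / 2)))) *
              (ENNReal.ofReal ((1 + |(k₀ : ℝ)|) ^ k * NN n ^ k * D) +
                ENNReal.ofReal ((1 + |(k₀ : ℝ)|) ^ k * NN n ^ k * D)) := by
            refine mul_le_mul' le_rfl (add_le_add ?_ ?_)
            · exact (shift_l1 hD _).trans (ENNReal.ofReal_le_ofReal (mul_le_mul_of_nonneg_right hz1 hD0))
            · exact (shift_l1 hD _).trans (ENNReal.ofReal_le_ofReal (mul_le_mul_of_nonneg_right hz2 hD0))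
        _ = ENNReal.ofReal ((NN n ^ p * (B * Real.exp (-(ta ν n t / 2)))) *
              ((1 + |(k₀ : ℝ)|) ^ k * NN n ^ k * D + (1 + |(k₀ : ℝ)|) ^ k * NN n ^ k * D)) := by
            rw [← ENNReal.ofReal_add (by positivity) (by positivity), ← ENNReal.ofReal_mul (by positivity)]
        _ ≤ _ := by
            apply ENNReal.ofReal_le_ofReal
            have h9 : 0 ≤ (NN n ^ p * (B * Real.exp (-(ta ν n t / 2)))) * ((1 + |(k₀ : ℝ)|) ^ k * NN n ^ k * (2 * C)) := by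
              positivity
            calc _ ≤ (NN n ^ p * (B * Real.exp (-(ta ν n t / 2)))) *
              ((1 + |(k₀ : ℝ)|) ^ k * NN n ^ k * D + (1 + |(k₀ : ℝ)|) ^ k * NN n ^ k * D) +
              (NN n ^ p * (B * Real.exp (-(ta ν n t / 2)))) * ((1 + |(k₀ : ℝ)|) ^ k * NN n ^ k * (2 * C)) := by
                  linarith
              _ = _ := by rw [hzp]; ring

theorem good_of_mem {ν : ℝ} (hν : 0 < ν) {p : ℤ} {f : Fam} (hf : f ∈ OO ν p) : Good ν p f := by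
  unfold OO at hf
  induction hf using Submodule.span_induction with
  | mem f hf =>
    obtain ⟨q, l, j, k, ρ, hq, hj, hρ, hf | hf⟩ := hf
    · refine good_gen hν hq l j hj k hρ f (fun n x => ρ x * Real.cos (k * NN n * x 2)) ?_ ?_ ?_ (1 / 2) (1 / 2)
        (by norm_num) (by norm_num) ?_
      · intro n t x
        rw [hf]
        unfold Tc
        ring
      · intro n
        have := hρ.1.continuous
        fun_prop
      · intro n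
        exact hρ.2.mul_right
      · intro n ξ
        rw [ft_cos hρ]
        ring
    · refine good_gen hν hq l j hj k hρ f (fun n x => ρ x * Real.sin (k * NN n * x 2)) ?_ ?_ ?_ (-Complex.I / 2)
        (Complex.I / 2) (by simp; norm_num) (by simp; norm_num) ?_
      · intro n t x
        rw [hf]
        unfold Ts
        ring
      · intro n
        have := hρ.1.continuous
        fun_prop
      · intro n
        exact hρ.2.mul_right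
      · intro n ξ
        rw [ft_sin hρ]
        ring
  | zero =>
    have h0 : ∀ (n : ℕ) (t : ℝ) (ξ : E3), 𝓕 (fun x => (((0 : Fam) n t x : ℝ) : ℂ)) ξ = 0 := by
      intro n t ξ
      have := ft_const 0 (fun _ => 0) ξ
      simpa using this
    refine ⟨fun n t => ?_, fun n => ?_, fun k => ⟨0, le_rfl, fun n t ht => ⟨fun ξ => ?_, ?_⟩⟩⟩
    · simp
    · have h4 : (fun z : ℝ × E3 => 𝓕 (fun x => (((0 : Fam) n z.1 x : ℝ) : ℂ)) z.2) = fun _ => 0 :=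
        funext fun z => h0 n z.1 z.2
      rw [h4]
      exact measurable_const
    · rw [h0]
      simp
    · simp only [h0]
      simp
  | add f g _ _ hf hg => exact good_add hf hg
  | smul a f _ hf => exact good_smul a hf

theorem t_OC4 : S_OC4 := fun _ _ _ hν hf => (good_of_mem hν hf).2

end Pool.Agent.Run7.h714.AX
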